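import Pool.Agent.helper35.MR.SpecB

/-!
# Module mr:FS4: a full tensor of order 4 has full slice rank
-/

set_option autoImplicit false

open Finset

namespace Pool.Agent.helper35.MR

open Pool.Agent.RRank

lemma FS4_0 {ι K : Type} [Fintype ι] [Field K] (a u : ι → K) (a' : ι → ι → ι → K) (v w q : ι → K)
    (h : ∑ i, a i * u i = 0) :
    ∑ i, ∑ j, ∑ k, ∑ m, (a i * a' j k m) * (u i * v j * w k * q m) = 0 := by
  have e : ∀ i j k m, (a i * a' j k m) * (u i * v j * w k * q m) =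
      (a i * u i) * (a' j k m * v j * w k * q m) := fun i j k m => by ring
  simp only [e, ← Finset.mul_sum, ← Finset.sum_mul, h, zero_mul]

lemma FS4_1 {ι K : Type} [Fintype ι] [Field K] (b v : ι → K) (b' : ι → ι → ι → K) (u w q : ι → K)
    (h : ∑ i, b i * v i = 0) :
    ∑ i, ∑ j, ∑ k, ∑ m, (b j * b' i k m) * (u i * v j * w k * q m) = 0 := by
  have e : ∀ i j k m, (b j * b' i k m) * (u i * v j * w k * q m) =
      (b j * v j) * (b' i k m * u i * w k * q m) := fun i j k m => by ring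
  rw [Finset.sum_comm]
  simp only [e, ← Finset.mul_sum, ← Finset.sum_mul, h, zero_mul]

lemma FS4_3 {ι K : Type} [Fintype ι] [Field K] (d q : ι → K) (d' : ι → ι → ι → K) (u v w : ι → K)
    (h : ∑ i, d i * q i = 0) :
    ∑ i, ∑ j, ∑ k, ∑ m, (d m * d' i j k) * (u i * v j * w k * q m) = 0 := by
  have e : ∀ i j k m, (d m * d' i j k) * (u i * v j * w k * q m) =
      (d' i j k * u i * v j * w k) * (d m * q m) := fun i j k m => by ring
  simp only [e, ← Finset.mul_sum, h, mul_zero, Finset.sum_const_zero]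

lemma FS4_2 {ι K : Type} [Fintype ι] [Field K] (c w : ι → K) (c' : ι → ι → ι → K) (u v q : ι → K)
    (h : ∑ i, c i * w i = 0) :
    ∑ i, ∑ j, ∑ k, ∑ m, (c k * c' i j m) * (u i * v j * w k * q m) = 0 := by
  have e : ∀ i j k m, (c k * c' i j m) * (u i * v j * w k * q m) =
      (c k * w k) * (c' i j m * u i * v j * q m) := fun i j k m => by ring
  refine Finset.sum_eq_zero fun i _ => Finset.sum_eq_zero fun j _ => ?_
  simp only [e]
  rw [Finset.sum_comm]
  simp only [← Finset.sum_mul, h, zero_mul, Finset.sum_const_zero]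

/-- the value of a slice on vectors vanishes if its one variable factor does -/
lemma FS4_sl {ι K : Type} [Fintype ι] [Field K] (t : ι → ι → ι → ι → K) (ht : IsSl t) :
    ∃ (δ : Fin 4) (a : ι → K), ∀ u : Fin 4 → ι → K, ∑ i, a i * u δ i = 0 →
      ev4 t (u 0) (u 1) (u 2) (u 3) = 0 := by
  rcases ht with ⟨a, a', h⟩ | ⟨b, b', h⟩ | ⟨c, c', h⟩ | ⟨d, d', h⟩
  · refine ⟨0, a, fun u hu => ?_⟩
    unfold ev4
    simp only [h]
    exact FS4_0 _ _ _ _ _ _ hu
  · refine ⟨1, b, fun u hu => ?_⟩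
    unfold ev4
    simp only [h]
    exact FS4_1 _ _ _ _ _ _ hu
  · refine ⟨2, c, fun u hu => ?_⟩
    unfold ev4
    simp only [h]
    exact FS4_2 _ _ _ _ _ _ hu
  · refine ⟨3, d, fun u hu => ?_⟩
    unfold ev4
    simp only [h]
    exact FS4_3 _ _ _ _ _ _ hu

lemma FS4_fin {ι K : Type} [Fintype ι] [Field K] {r : ℕ} (δ : Fin r → Fin 4) (A : Fin r → ι → K)
    (α : Fin 4) :
    ∃ U : Submodule K (ι → K), (∀ u ∈ U, ∀ m, δ m = α → ∑ i, A m i * u i = 0) ∧
      Fintype.card ι ≤ Module.finrank K U + (Finset.univ.filter fun m => δ m = α).card := by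
  classical
  let L : (ι → K) →ₗ[K] ({m // δ m = α} → K) :=
    Matrix.mulVecLin (Matrix.of fun (m : {m // δ m = α}) i => A m i)
  refine ⟨LinearMap.ker L, ?_, ?_⟩
  · intro u hu m hm
    rw [LinearMap.mem_ker] at hu
    exact congrFun hu ⟨m, hm⟩
  · have h1 := LinearMap.finrank_range_add_finrank_ker L
    have h2 : Module.finrank K (LinearMap.range L) ≤ (Finset.univ.filter fun m => δ m = α).card := by
      refine (Submodule.finrank_le _).trans ?_
      rw [Module.finrank_fintype_fun_eq_card, Fintype.card_subtype]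
    rw [Module.finrank_fintype_fun_eq_card] at h1
    omega

/-- linearity of `ev4` in the tensor -/
lemma FS4_sum {ι K : Type} [Fintype ι] [Field K] {r : ℕ} (t : Fin r → ι → ι → ι → ι → K)
    (u v w q : ι → K) :
    ev4 (fun i j k m => ∑ n, t n i j k m) u v w q = ∑ n, ev4 (t n) u v w q := by
  unfold ev4
  simp only [Finset.sum_mul]
  calc ∑ x, ∑ y, ∑ z, ∑ s, ∑ n, t n x y z s * (u x * v y * w z * q s)
      = ∑ x, ∑ y, ∑ z, ∑ n, ∑ s, t n x y z s * (u x * v y * w z * q s) :=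
        Finset.sum_congr rfl fun _ _ => Finset.sum_congr rfl fun _ _ =>
          Finset.sum_congr rfl fun _ _ => Finset.sum_comm
    _ = ∑ x, ∑ y, ∑ n, ∑ z, ∑ s, t n x y z s * (u x * v y * w z * q s) :=
        Finset.sum_congr rfl fun _ _ => Finset.sum_congr rfl fun _ _ => Finset.sum_comm
    _ = ∑ x, ∑ n, ∑ y, ∑ z, ∑ s, t n x y z s * (u x * v y * w z * q s) :=
        Finset.sum_congr rfl fun _ _ => Finset.sum_comm
    _ = _ := Finset.sum_comm

/-- a tensor which is a sum of fewer slices is not full -/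
lemma FS4_main {ι K : Type} [Fintype ι] [Field K] (M : ι → ι → ι → ι → K) {r : ℕ}
    (hr : r < Fintype.card ι) (t : Fin r → ι → ι → ι → ι → K) (ht : ∀ n, IsSl (t n))
    (hM : ∀ i j k m, M i j k m = ∑ n, t n i j k m) : ¬ Full4 M := by
  intro hF
  choose δ A hA using fun n => FS4_sl (t n) (ht n)
  obtain ⟨U0, h0, h0'⟩ := FS4_fin δ A 0
  obtain ⟨U1, h1, h1'⟩ := FS4_fin δ A 1
  obtain ⟨U2, h2, h2'⟩ := FS4_fin δ A 2
  obtain ⟨U3, h3, h3'⟩ := FS4_fin δ A 3
  have hcard : (Finset.univ.filter fun m => δ m = 0).card +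
      (Finset.univ.filter fun m => δ m = 1).card + (Finset.univ.filter fun m => δ m = 2).card +
      (Finset.univ.filter fun m => δ m = 3).card = r := by
    have := Finset.card_eq_sum_card_fiberwise (f := δ) (s := Finset.univ) (t := Finset.univ)
      (fun _ _ => Finset.mem_coe.2 (Finset.mem_univ _))
    rw [Fin.sum_univ_four, Finset.card_univ, Fintype.card_fin] at this
    exact this.symm
  obtain ⟨u0, hu0, u1, hu1, u2, hu2, u3, hu3, hne⟩ := hF U0 U1 U2 U3 (by omega)
  apply hne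
  have e : M = fun i j k m => ∑ n, t n i j k m := by
    funext i j k m
    exact hM i j k m
  rw [e, FS4_sum]
  refine Finset.sum_eq_zero fun n _ => ?_
  refine hA n ![u0, u1, u2, u3] ?_
  have h4 : ∀ x : Fin 4, x = 0 ∨ x = 1 ∨ x = 2 ∨ x = 3 := by decide
  rcases h4 (δ n) with h | h | h | h
  · rw [h]
    exact h0 u0 hu0 n h
  · rw [h]
    exact h1 u1 hu1 n h
  · rw [h]
    exact h2 u2 hu2 n h
  · rw [h]
    exact h3 u3 hu3 n h

lemma FS4_comp {X Y Z W ι K : Type} [Field K] (t : X → Y → Z → W → K) (ht : IsSl t)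
    (x : ι → X) (y : ι → Y) (z : ι → Z) (w : ι → W) :
    IsSl (fun i j k m => t (x i) (y j) (z k) (w m)) := by
  rcases ht with ⟨a, a', h⟩ | ⟨b, b', h⟩ | ⟨c, c', h⟩ | ⟨d, d', h⟩
  · exact Or.inl ⟨fun i => a (x i), fun j k m => a' (y j) (z k) (w m), fun i j k m => h _ _ _ _⟩
  · exact Or.inr (Or.inl ⟨fun i => b (y i), fun j k m => b' (x j) (z k) (w m),
      fun i j k m => h _ _ _ _⟩)
  · exact Or.inr (Or.inr (Or.inl ⟨fun i => c (z i), fun j k m => c' (x j) (y k) (w m),
      fun i j k m => h _ _ _ _⟩))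
  · exact Or.inr (Or.inr (Or.inr ⟨fun i => d (w i), fun j k m => d' (x j) (y k) (z m),
      fun i j k m => h _ _ _ _⟩))

theorem FS4 (hSLC : SLC_stmt) : FS4_stmt := by
  intro K _ Q T ι _ x y z w X hx hy hz hw hF
  classical
  by_contra hcon
  rw [not_le] at hcon
  obtain ⟨r, hr, hsum⟩ := exists_sumOf_of_rank_lt hcon
  obtain ⟨t, ht, hT⟩ := (hSLC K (fun α => X α) (minor T X)).2 r hsum
  refine FS4_main _ hr (fun n i j k m => t n ⟨x i, hx i⟩ ⟨y j, hy j⟩ ⟨z k, hz k⟩ ⟨w m, hw m⟩)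
    (fun n => FS4_comp (t n) (ht n) (fun i => ⟨x i, hx i⟩) (fun i => ⟨y i, hy i⟩)
      (fun i => ⟨z i, hz i⟩) (fun i => ⟨w i, hw i⟩)) ?_ hF
  intro i j k m
  rw [← hT]
  show T _ = T _
  congr 1
  funext α
  fin_cases α <;> rfl

end Pool.Agent.helper35.MR
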